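import Pool.Agent.U160.FD.Mult
import Pool.Agent.R459.C2

/-!
# Moduli without exceptional even multiples, near the dilates of almost every point of a measure with Fourier decay

Definitions used:
* in `Pool.Agent.U160.FD` (file `Defs`): `FourierDecay μ`: the Fourier transform `μ^(t) = ∫ exp(i t x) dμ(x)` of `μ` is
  `O(t ^ (-β))` for some `β > 0`; `FourierSmall μ`: there are `h ≥ 1`, `c` and `K` with
  `∫_0^T |μ^(t)| ^ (2 h) dt ≤ K (log T) ^ c` for all `T ≥ 2`;
* in `Pool.Agent.H560R3.GB`: `g m`: the number of ordered representations of `m` as a sum of two primes; `sing m`: the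
  singular series `2 C₂ ∏_{p ∣ m, p > 2} (p - 1) / (p - 2)`, where `C₂ = ∏_{p > 2} (1 - 1 / (p - 1) ^ 2)`.

Method (`Pool.Agent.U160.FD`): the signed sums of `2 h` independent points of `μ` are in an interval of length `r` with
probability at most `r (log 1 / r) ^ c` up to a constant, by the moment of the Fourier transform; thus the weights
`μ{x : ⌊λ x⌋ = a}` and all their multiples have nearly minimal additive energy of order `h`, they are approximated by
finite families (with multiplicities), and the theorem of the starting files on Goldbach pairs for families of nearly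
minimal energy (`Pool.Agent.TH935.GF.fam_win`) bounds the measure of the exceptional points; Borel-Cantelli.
-/

set_option autoImplicit false

namespace Pool.Agent.Results.MP_92f640_nt.FourierDecay

open MeasureTheory Filter Finset Pool.Agent.H560R3.GB Pool.Agent.U160.FD

/-- `g n ≥ 1.3 n / log ^ 2 n`, and `g n` is `sing n * n / log ^ 2 n` up to a relative error of at most `ε`. -/
def Rep (ε : ℝ) (n : ℕ) : Prop :=
  13 / 10 * ((n : ℝ) / Real.log n ^ 2) ≤ g n ∧
    |(g n : ℝ) - sing n * ((n : ℝ) / Real.log n ^ 2)| ≤ ε * (sing n * ((n : ℝ) / Real.log n ^ 2))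

/-- The modulus `q` has no exceptional even multiples up to `y q`: every even integer `n` with `0 < n ≤ y q` and `q ∣ n`
satisfies `Rep ε n`. -/
def NoExceptions (ε y : ℝ) (q : ℕ) : Prop := ∀ n : ℕ, 0 < n → Even n → q ∣ n → (n : ℝ) ≤ y * q → Rep ε n

lemma cnt_full (m : ℕ) : Pool.Agent.W93.PG.cnt m 0 m = g m := by
  unfold Pool.Agent.W93.PG.cnt g
  apply card_bij' (fun p _ => (p, m - p)) (fun q _ => q.1)
  · intro p hp
    rw [mem_filter, mem_Ioc] at hp
    rw [mem_filter, HasAntidiagonal.mem_antidiagonal]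
    exact ⟨by simp only; omega, hp.2⟩
  · intro q hq
    rw [mem_filter, HasAntidiagonal.mem_antidiagonal] at hq
    rw [mem_filter, mem_Ioc]
    obtain ⟨h1, h2, h3⟩ := hq
    have e : m - q.1 = q.2 := by omega
    rw [e]
    exact ⟨⟨h2.pos, by omega⟩, h2, h3⟩
  · intro p _
    rfl
  · intro q hq
    rw [mem_filter, HasAntidiagonal.mem_antidiagonal] at hq
    ext
    · rfl
    · simp only
      omega

lemma rep_of (ε : ℝ) (m : ℕ) (hm : 3 ≤ m) (hw : Pool.Agent.W93.PG.WinP (min ε (1 / 200)) 1 m) : Rep ε m := by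
  have hmr : (3 : ℝ) ≤ m := by exact_mod_cast hm
  have hlog : 1 ≤ Real.log m := by
    rw [Real.le_log_iff_exp_le (by linarith)]
    linarith [Real.exp_one_lt_d9]
  have h1 := hw 0 m (by omega) le_rfl (by
    rw [Nat.cast_zero, sub_zero]
    exact div_le_self (by linarith) (one_le_pow₀ hlog))
  rw [cnt_full, Nat.cast_zero, sub_zero] at h1
  obtain ⟨Q, hQ⟩ : ∃ Q : ℝ, Q = (m : ℝ) / Real.log m ^ 2 := ⟨_, rfl⟩
  have hQ0 : 0 < Q := by
    rw [hQ]
    apply div_pos (by linarith) (by positivity)
  have e1 : sing m * (m : ℝ) / Real.log m ^ 2 = sing m * Q := by rw [hQ]; ring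
  have hs := Pool.Agent.R459.sing_num m
  have hsQ : 327 / 250 * Q ≤ sing m * Q := mul_le_mul_of_nonneg_right hs hQ0.le
  have hsQ0 : 0 ≤ sing m * Q := by linarith [mul_pos (by norm_num : (0 : ℝ) < 327 / 250) hQ0]
  rw [e1] at h1
  unfold Rep
  rw [← hQ]
  refine ⟨?_, h1.trans (mul_le_mul_of_nonneg_right (min_le_left _ _) hsQ0)⟩
  have h2 := h1.trans (mul_le_mul_of_nonneg_right (min_le_right _ _) hsQ0)
  rw [abs_le] at h2
  linarith [h2.1]

lemma no_exc (ε : ℝ) (J q : ℕ)
    (h : ∀ t : ℕ, 0 < t → (t : ℝ) ≤ Real.log q ^ J → Even (t * q) → Rep ε (t * q)) :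
    NoExceptions ε (Real.log q ^ J) q := by
  intro n hn hev hqn hle
  obtain ⟨t, rfl⟩ := hqn
  have ht : 0 < t := Nat.pos_of_mul_pos_left hn
  have hq : 0 < q := Nat.pos_of_mul_pos_right hn
  rw [mul_comm q t] at hev ⊢
  refine h t ht ?_ hev
  have hq0 : (0 : ℝ) < q := by exact_mod_cast hq
  push_cast at hle
  rw [mul_comm (q : ℝ) t] at hle
  exact le_of_mul_le_mul_right hle hq0

/-- Let `μ` be a probability measure on the line whose Fourier transform is `O(t ^ (-β))` for some `β > 0`, or
satisfies the weaker condition `FourierSmall` (for example a measure on a set of arbitrarily small positive dimension).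

(1) Let `λ_j` be any sequence with `λ_j ≥ exp (j ^ δ)` for large `j`, for some `δ > 0`. Then for `μ`-almost every `x > 0`:
for all `J`, `W` and `ε > 0` and all large `j`, ALL the moduli `q` with `|q - λ_j x| ≤ (log λ_j) ^ W` have no exceptional
even multiples up to `q log ^ J q`: every even `n` with `0 < n ≤ q log ^ J q` and `q ∣ n` satisfies
`g n ≥ 1.3 n / log ^ 2 n`, and `g n` is as predicted by Hardy and Littlewood, up to a relative error of at most `ε`.

(2) For `μ`-almost every `x > 0` this holds for `λ_j = b ^ j` in all bases `b ≥ 2` at once: all the moduli at a distance of at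
most `j ^ W` from the integer consisting of the first digits of `x` (up to the `j`-th digit after the point) in base `b`
have this property, for all large `j`. -/
theorem result (μ : Measure ℝ) [IsProbabilityMeasure μ] (hμ : FourierSmall μ ∨ FourierDecay μ) :
    (∀ (lam : ℕ → ℝ) (δ : ℝ), 0 < δ → (∀ᶠ j : ℕ in atTop, Real.exp ((j : ℝ) ^ δ) ≤ lam j) →
      ∀ᵐ x ∂μ, 0 < x → ∀ (J W : ℕ) (ε : ℝ), 0 < ε → ∀ᶠ j : ℕ in atTop, ∀ q : ℕ,
        |(q : ℝ) - lam j * x| ≤ Real.log (lam j) ^ W → NoExceptions ε (Real.log q ^ J) q) ∧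
    (∀ᵐ x ∂μ, 0 < x → ∀ b : ℕ, 2 ≤ b → ∀ (J W : ℕ) (ε : ℝ), 0 < ε → ∀ᶠ j : ℕ in atTop, ∀ q : ℕ,
      |(q : ℝ) - (b : ℝ) ^ j * x| ≤ (j : ℝ) ^ W → NoExceptions ε (Real.log q ^ J) q) := by
  have hμ' : FourierSmall μ := hμ.elim id FourierDecay.small
  constructor
  · intro lam δ hδ hlam
    filter_upwards [mult_main μ hμ' lam δ hδ hlam] with x hx hx0 J W ε hε
    filter_upwards [hx hx0 (fun m => Rep ε m) 1 W J 3 (min ε (1 / 200)) (lt_min hε (by norm_num))
      (fun m h1 _ h3 => rep_of ε m h1 h3)] with j hj q hq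
    exact no_exc ε J q (hj q hq)
  · filter_upwards [mult_bases μ hμ'] with x hx hx0 b hb J W ε hε
    filter_upwards [hx hx0 b hb (fun m => Rep ε m) 1 W J 3 (min ε (1 / 200)) (lt_min hε (by norm_num))
      (fun m h1 _ h3 => rep_of ε m h1 h3)] with j hj q hq
    exact no_exc ε J q (hj q hq)

end Pool.Agent.Results.MP_92f640_nt.FourierDecay
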