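import Pool.Agent.U847.TI
import Pool.Agent.Results.MP_dd84fd_nt.QuadraticNeighbourhoods

/-!
# Goldbach representations of all the multiples of moduli with a random field of digits

The moduli are all the integers near `c + κ v`, where the digits of the random integer `v` form a Markov random field on an
arbitrary graph of positions of bounded degree, for example a uniformly random proper colouring of the graph.

Definitions used: `Pool.Agent.H560R3.GB.g n`: the number of the ordered representations of `n` as a sum of two primes;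
`Pool.Agent.H560R3.GB.sing n`: the singular series of Goldbach's problem.

Method: exponential sums over the integers whose digits form a Markov random field: averages over separated neighbourhoods
in the graph of positions (starting files, `Pool.Agent.N213.GF`). New here: a frequency `θ` at which the exponential sum over
the multiples `h v` is large differs little from a fraction with a small denominator except at `O(log k)` of the digits, for
all `h ≤ k ^ J` (`Pool.Agent.U847.TG`, `Pool.Agent.U847.TI`). The passage from such a description of the large frequencies to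
Goldbach's problem is from the starting files (`Pool.Agent.N625.PT.t_windows`).

Examples of random fields, proved in `Pool.Agent.N213.GF.E` and `Pool.Agent.N213.GF.F`: the uniform distribution on the
solutions of local constraints with flexible digits on a graph of positions with degrees at most `Δ`, with `η = 1 / b ^ (Δ + 1)`
(`unif_field`); in particular the integers whose nonzero digits form an independent set of the graph (`indep_local`), and,
for `b ≥ Δ + 2`, the integers whose digits are a proper colouring of the graph (`colour_local`).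
-/

set_option autoImplicit false

namespace Pool.Agent.Results.MP_92f640_nt.RandomFieldModuli

open Finset Pool.Agent.H560R3.GB

/-- `g n ≥ 1.3 n / log ^ 2 n`, and `g n` is `sing n * n / log ^ 2 n` up to a relative error of at most `ε`. -/
def Rep (ε : ℝ) (n : ℕ) : Prop :=
  13 / 10 * ((n : ℝ) / Real.log n ^ 2) ≤ g n ∧
    |(g n : ℝ) - sing n * ((n : ℝ) / Real.log n ^ 2)| ≤ ε * (sing n * ((n : ℝ) / Real.log n ^ 2))

/-- The digit of `v` at the position `i` in base `b` (the position `0` is the least significant one). -/
def dig (b v i : ℕ) : ℕ := v / b ^ i % b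

/-- The integer which has the digits of `v` at the positions in `S` and the digits of `w` at the other positions below `k`. -/
def splice (b k : ℕ) (S : Finset ℕ) (v w : ℕ) : ℕ := ∑ i ∈ range k, (if i ∈ S then dig b v i else dig b w i) * b ^ i

/-- `v` and `w` have the same digits outside the set `S` of positions. -/
def Off (b : ℕ) (S : Finset ℕ) (v w : ℕ) : Prop := ∀ i, i ∉ S → dig b v i = dig b w i

open Classical in
/-- The closed neighbourhood of the position `i` in the graph `A` on the positions `0, …, k - 1`. -/
noncomputable def nb (k : ℕ) (A : ℕ → ℕ → Prop) (i : ℕ) : Finset ℕ := (range k).filter fun j => j = i ∨ A i j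

open Classical in
/-- The total weight of the integers below `b ^ k` which have the same digits as `v` outside `S`. -/
noncomputable def mass (b k : ℕ) (p : ℕ → ℝ) (S : Finset ℕ) (v : ℕ) : ℝ :=
  ∑ w ∈ (range (b ^ k)).filter (fun w => Off b S w v), p w

/-- The digits of a random integer `v < b ^ k` (with the probabilities `p v`) form a Markov random field on a graph `A` of
positions with degrees at most `Δ` (the Markov property: for every set `S` of positions and all `v`, `w` which have the same
digits at the positions outside `S` adjacent to `S`, the product `p v * p w` does not change if `v` and `w` exchange their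
digits in `S`), and each digit is flexible: for every `v` with `p v ≠ 0` and every position `i`, there are `x` and `y` which
have the same digits as `v` outside the closed neighbourhood of `i`, which differ from each other exactly at the position
`i`, and whose conditional probabilities, given the digits outside this neighbourhood, are at least `η`. -/
structure Field (b k Δ : ℕ) (η : ℝ) (A : ℕ → ℕ → Prop) (p : ℕ → ℝ) : Prop where
  symm : ∀ i j, A i j → A j i
  degree : ∀ i < k, (nb k A i).card ≤ Δ + 1
  nonneg : ∀ v, 0 ≤ p v
  sum : ∑ v ∈ range (b ^ k), p v = 1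
  markov : ∀ S : Finset ℕ, ∀ v < b ^ k, ∀ w < b ^ k, (∀ i ∈ S, ∀ j < k, j ∉ S → A i j → dig b v j = dig b w j) →
    p v * p w = p (splice b k S v w) * p (splice b k S w v)
  flexible : ∀ v < b ^ k, p v ≠ 0 → ∀ i < k, ∃ x < b ^ k, ∃ y < b ^ k, Off b (nb k A i) x v ∧ Off b {i} y x ∧
    dig b y i ≠ dig b x i ∧ η * mass b k p (nb k A i) v ≤ p x ∧ η * mass b k p (nb k A i) v ≤ p y

lemma field_conv {b k Δ : ℕ} {η : ℝ} {A : ℕ → ℕ → Prop} {p : ℕ → ℝ} (h : Field b k Δ η A p) :
    Pool.Agent.N213.GF.Field b k Δ η A p :=
  ⟨h.symm, h.degree, h.nonneg, h.sum, h.markov, h.flexible⟩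

lemma rep_of (ε : ℝ) (m : ℕ) (hm : 3 ≤ m) (hw : Pool.Agent.W93.PG.WinP (min ε (1 / 200)) 1 m) : Rep ε m := by
  obtain ⟨h1, h2⟩ := MP_dd84fd_nt.QuadraticNeighbourhoods.holds_of 1 ε m hm hw
  refine ⟨h1, ?_⟩
  have hmr : (3 : ℝ) ≤ m := by exact_mod_cast hm
  have hlog : 1 ≤ Real.log m := by
    rw [Real.le_log_iff_exp_le (by linarith)]
    linarith [Real.exp_one_lt_d9]
  have h3 := (h2 0 m (by omega) le_rfl (by
    rw [Nat.cast_zero, sub_zero]
    exact div_le_self (by linarith) (one_le_pow₀ hlog))).2
  rw [MP_dd84fd_nt.QuadraticNeighbourhoods.G_full, Nat.cast_zero, sub_zero] at h3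
  exact h3

open Classical in
/-- **The multiples of the moduli with a random field of digits.** Let `b ≥ 2`, `Δ`, `η > 0`, `κ ≠ 0`, `B`, `J`, `W`, `U` and
`ε > 0` be fixed and let `k` be large. Let `c` be any integer with `|c| ≤ B b ^ k` and let `v < b ^ k` be a random integer
whose digits form a Markov random field with flexible digits on an arbitrary graph `A` of positions with degrees at most
`Δ` (`Field b k Δ η A p`). Then with a probability of at least `1 - 1 / k ^ U` ALL the integers `q ≥ 1` at a distance
of at most `k ^ W` from `c + κ v` have no exceptional even multiples up to `k ^ J q`: every even integer `n` with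
`0 < n ≤ k ^ J q` and `q ∣ n` satisfies `Rep ε n`. -/
theorem result (b : ℕ) (hb : 2 ≤ b) (Δ : ℕ) (η : ℝ) (hη : 0 < η) (κ : ℤ) (hκ : κ ≠ 0)
    (B J W U : ℕ) (ε : ℝ) (hε : 0 < ε) :
    ∃ k₀ : ℕ, ∀ k : ℕ, k₀ ≤ k → ∀ (A : ℕ → ℕ → Prop) (p : ℕ → ℝ), Field b k Δ η A p → ∀ c : ℤ, |c| ≤ B * (b : ℤ) ^ k →
      ∑ v ∈ range (b ^ k), (if ∀ q : ℕ, 1 ≤ q → |(q : ℤ) - (c + κ * v)| ≤ (k : ℤ) ^ W →
        ∀ n : ℕ, 0 < n → Even n → q ∣ n → n ≤ k ^ J * q → Rep ε n then 0 else p v) ≤ 1 / (k : ℝ) ^ U := by
  obtain ⟨k₀, hmain⟩ := Pool.Agent.N625.PT.t_windows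
    (Pool.Agent.U847.TI.gf_tcls b Δ η hb hη κ hκ) B J W 1 U 3 (min ε (1 / 200)) (lt_min hε (by norm_num)) (Rep ε)
    (fun m hm _ hw => rep_of ε m hm hw)
  refine ⟨k₀, fun k hk A p hp c hc => ?_⟩
  refine hmain k hk p ⟨A, field_conv hp⟩ c hc (fun v => ∀ q : ℕ, 1 ≤ q → |(q : ℤ) - (c + κ * v)| ≤ (k : ℤ) ^ W →
        ∀ n : ℕ, 0 < n → Even n → q ∣ n → n ≤ k ^ J * q → Rep ε n) ?_
  intro v hv
  push Not at hv
  obtain ⟨q, hq1, hq2, n, hn0, hev, ⟨h, rfl⟩, hn2, hbad⟩ := hv
  have hh1 : 1 ≤ h := by
    rcases Nat.eq_zero_or_pos h with rfl | h0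
    · simp at hn0
    · exact h0
  have hh2 : h ≤ k ^ J := by
    rw [mul_comm] at hn2
    exact Nat.le_of_mul_le_mul_right hn2 hq1
  refine ⟨h, hh1, hh2, (q : ℤ) - (c + κ * v), hq2, ?_⟩
  have e : (h : ℤ) * (c + ((q : ℤ) - (c + κ * v)) + κ * v) = ((q * h : ℕ) : ℤ) := by
    push_cast
    ring
  rw [e]
  refine ⟨by exact_mod_cast hn0, by exact_mod_cast hev.two_dvd, ?_⟩
  rw [Int.toNat_natCast]
  exact hbad

end Pool.Agent.Results.MP_92f640_nt.RandomFieldModuli
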