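import Pool.Agent.R459.C2
import Pool.Agent.U471.RP.Mult

/-!
# Goldbach representations of the multiples of large moduli `q`: no exceptions for all `q` near almost all values of real polynomials

Let `f` be a real polynomial of degree at most `d` whose coefficient of `t ^ d` lies between `(log N) ^ (-C)` and
`(log N) ^ C`, with `|f(m)| ≤ N` for `m = 1, …, x`, where `(log N) ^ C x ^ d ≥ N`; the other coefficients are arbitrary. For
all but a proportion `(log N) ^ (-U)` of the `m ≤ x`, ALL the moduli `q ≥ 1` with `|q - f(m)| ≤ (log N) ^ W` are such that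
EVERY even multiple `n` of `q` up to `q (log N) ^ T` has the number of representations as a sum of two primes predicted by
Hardy and Littlewood, up to a factor `1 ± ε`, in all long windows for one of the two primes, in particular at least
`1.3 n / log ^ 2 n` representations. In the problem almost all even multiples `n ≤ x` of `q` are required to have
`g(n) ≥ δ n / log ^ 2 n`, with no exceptions at all in the critical range `x / 8 < q ≤ x / 4`. The theorem is uniform in `f`.

Proof: an inverse theorem for Weyl sums (`Pool.Agent.H373R2.NB.IW_all`) shows that the integers near the values, multiplied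
by any `j`, have, up to powers of `log N`, the least possible additive energy of some order
(`Pool.Agent.U471.RP.energy_real`); then the theorem of the starting files on families of small energy
(`Pool.Agent.R459.near_even`) applies.

Definitions used: in `Pool.Agent.H560R3.GB`: `g m`: the number of ordered representations of `m` as a sum of two primes;
`sing m`: the singular series `2 C₂ ∏_{p ∣ m, p > 2} (p - 1) / (p - 2)`, where `C₂ = ∏_{p > 2} (1 - 1 / (p - 1) ^ 2)`.
-/

set_option autoImplicit false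

namespace Pool.Agent.Results.MP_92f640_nt.RealPolynomialModuli

open Finset Polynomial Pool.Agent.H560R3.GB

/-- The number of ordered representations of `m` as a sum `p + q` of two primes with `y₁ < p ≤ y₂`. -/
def G (m y₁ y₂ : ℕ) : ℕ := ((Ioc y₁ y₂).filter (fun p => p.Prime ∧ (m - p).Prime)).card

/-- (1) `g m ≥ 1.3 m / log ^ 2 m`;
(2) for all windows `(y₁, y₂] ⊆ (0, m]` of length at least `m / log ^ A m` the number `G m y₁ y₂` of the
representations `m = p + q` with `y₁ < p ≤ y₂` is at least `1.3 (y₂ - y₁) / log ^ 2 m`, and it is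
`sing m * (y₂ - y₁) / log ^ 2 m` up to a relative error of at most `ε`. -/
def Rep (ε : ℝ) (A m : ℕ) : Prop :=
  13 / 10 * (m / Real.log m ^ 2) ≤ g m ∧
  ∀ y₁ y₂ : ℕ, y₁ < y₂ → y₂ ≤ m → (m : ℝ) / Real.log m ^ A ≤ (y₂ : ℝ) - y₁ →
    13 / 10 * (((y₂ : ℝ) - y₁) / Real.log m ^ 2) ≤ G m y₁ y₂ ∧
    |(G m y₁ y₂ : ℝ) - sing m * (((y₂ : ℝ) - y₁) / Real.log m ^ 2)| ≤
      ε * (sing m * (((y₂ : ℝ) - y₁) / Real.log m ^ 2))

/-- The modulus `q` is good: EVERY even multiple `n > 0` of `q` with `n ≤ J q` has the property `Rep ε A n`. -/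
def Good (ε : ℝ) (A : ℕ) (J : ℝ) (q : ℕ) : Prop :=
  ∀ n : ℕ, 0 < n → Even n → q ∣ n → (n : ℝ) ≤ J * q → Rep ε A n

/-- The real polynomials `f` of degree at most `d`, with `(log N) ^ (-C) ≤ f_d ≤ (log N) ^ C` for the coefficient `f_d`
of `t ^ d`, and with `|f(m)| ≤ N` for `m = 1, …, x`, where `(log N) ^ C x ^ d ≥ N`. -/
structure Normal (d C N x : ℕ) (f : ℝ[X]) : Prop where
  degree : f.natDegree ≤ d
  lower : 1 / Real.log N ^ C ≤ f.coeff d
  upper : f.coeff d ≤ Real.log N ^ C
  length : (N : ℝ) ≤ Real.log N ^ C * (x : ℝ) ^ d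
  values : ∀ m ∈ Icc 1 x, |f.eval (m : ℝ)| ≤ N

open Classical in
/-- The number of the `m ≤ x` such that some modulus `q ≥ 1` with `|q - f(m)| ≤ (log N) ^ W` is not good for
`J = (log N) ^ T`. -/
noncomputable def exceptions (ε : ℝ) (A T W N x : ℕ) (f : ℝ[X]) : ℕ :=
  ((Icc 1 x).filter (fun m : ℕ => ∃ q : ℕ, 0 < q ∧ |(q : ℝ) - f.eval (m : ℝ)| ≤ Real.log N ^ W ∧
    ¬ Good ε A (Real.log N ^ T) q)).card

lemma G_full (m : ℕ) : G m 0 m = g m := by
  unfold G g
  apply card_bij' (fun p _ => (p, m - p)) (fun q _ => q.1)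
  · intro p hp
    rw [mem_filter, mem_Ioc] at hp
    rw [mem_filter, HasAntidiagonal.mem_antidiagonal]
    exact ⟨by simp only; omega, hp.2⟩
  · intro q hq
    rw [mem_filter, HasAntidiagonal.mem_antidiagonal] at hq
    rw [mem_filter, mem_Ioc]
    obtain ⟨h1, h2, h3⟩ := hq
    have e : m - q.1 = q.2 := by omega
    rw [e]
    exact ⟨⟨h2.pos, by omega⟩, h2, h3⟩
  · intro p _
    rfl
  · intro q hq
    rw [mem_filter, HasAntidiagonal.mem_antidiagonal] at hq
    ext
    · rfl
    · simp only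
      omega

lemma rep_of (A : ℕ) (ε : ℝ) (m : ℕ) (hm : 3 ≤ m) (hw : Pool.Agent.W93.PG.WinP (min ε (1 / 200)) A m) :
    Rep ε A m := by
  have hmr : (3 : ℝ) ≤ m := by exact_mod_cast hm
  have hlog : 1 ≤ Real.log m := by
    rw [Real.le_log_iff_exp_le (by linarith)]
    linarith [Real.exp_one_lt_d9]
  have key : ∀ y₁ y₂ : ℕ, y₁ < y₂ → y₂ ≤ m → (m : ℝ) / Real.log m ^ A ≤ (y₂ : ℝ) - y₁ →
    13 / 10 * (((y₂ : ℝ) - y₁) / Real.log m ^ 2) ≤ G m y₁ y₂ ∧
    |(G m y₁ y₂ : ℝ) - sing m * (((y₂ : ℝ) - y₁) / Real.log m ^ 2)| ≤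
      ε * (sing m * (((y₂ : ℝ) - y₁) / Real.log m ^ 2)) := by
    intro y₁ y₂ hy hym hl
    have h1 : |(G m y₁ y₂ : ℝ) - sing m * ((y₂ : ℝ) - y₁) / Real.log m ^ 2| ≤
      min ε (1 / 200) * (sing m * ((y₂ : ℝ) - y₁) / Real.log m ^ 2) := hw y₁ y₂ hy hym hl
    obtain ⟨Q, hQ⟩ : ∃ Q : ℝ, Q = ((y₂ : ℝ) - y₁) / Real.log m ^ 2 := ⟨_, rfl⟩
    have hyr : (y₁ : ℝ) < y₂ := by exact_mod_cast hy
    have hQ0 : 0 < Q := by
      rw [hQ]
      apply div_pos (by linarith) (by positivity)
    have e1 : sing m * ((y₂ : ℝ) - y₁) / Real.log m ^ 2 = sing m * Q := by rw [hQ]; ring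
    have hs := Pool.Agent.R459.sing_num m
    have hsQ : 327 / 250 * Q ≤ sing m * Q := mul_le_mul_of_nonneg_right hs hQ0.le
    have hsQ0 : 0 ≤ sing m * Q := by linarith [mul_pos (by norm_num : (0 : ℝ) < 327 / 250) hQ0]
    rw [e1] at h1
    rw [← hQ]
    refine ⟨?_, h1.trans (mul_le_mul_of_nonneg_right (min_le_left _ _) hsQ0)⟩
    have h2 := h1.trans (mul_le_mul_of_nonneg_right (min_le_right _ _) hsQ0)
    rw [abs_le] at h2
    linarith [h2.1]
  refine ⟨?_, key⟩
  have h3 := (key 0 m (by omega) le_rfl (by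
    rw [Nat.cast_zero, sub_zero]
    exact div_le_self (by linarith) (one_le_pow₀ hlog))).1
  rw [G_full, Nat.cast_zero, sub_zero] at h3
  exact h3

/-- **Goldbach representations of all multiples of the moduli near the values of real polynomials.** Let `d ≥ 1`, `A`, `C`,
`T`, `W`, `U` and `ε > 0` be fixed and let `N` be large. For all `x` and ALL real polynomials `f` with `Normal d C N x f`: for
all but at most `x / log ^ U N` of the `m ≤ x`, ALL the moduli `q ≥ 1` with `|q - f(m)| ≤ log ^ W N` are such that EVERY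
even multiple `n` of `q` with `0 < n ≤ q log ^ T N` satisfies `g n ≥ 1.3 n / log ^ 2 n` and, in all windows `(y₁, y₂]` for the
first prime of length at least `n / log ^ A n`, the formula of Hardy and Littlewood with a relative error of at most `ε`. -/
theorem result (d : ℕ) (hd : 1 ≤ d) (A C T W U : ℕ) (ε : ℝ) (hε : 0 < ε) :
    ∃ N₀ : ℕ, ∀ N : ℕ, N₀ ≤ N → ∀ (x : ℕ) (f : ℝ[X]), Normal d C N x f →
      (exceptions ε A T W N x f : ℝ) ≤ x / Real.log N ^ U := by
  classical
  have hε' : 0 < min ε (1 / 200) := lt_min hε (by norm_num)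
  obtain ⟨N₀, h0⟩ := Pool.Agent.U471.RP.mult_real d A C T W U 3 hd (min ε (1 / 200)) hε' (Rep ε A)
    (fun m hm _ hw => rep_of A ε m hm hw)
  refine ⟨N₀, fun N hN x f hf => ?_⟩
  unfold exceptions
  refine h0 N hN x f ⟨hf.degree, hf.lower, hf.upper, hf.length, hf.values⟩ _ (filter_subset _ _) ?_
  intro m hm
  rw [mem_filter] at hm
  obtain ⟨_, q, hq0, hq1, hq2⟩ := hm
  unfold Good at hq2
  push Not at hq2
  obtain ⟨n, hn, hev, hqn, hnJ, hrep⟩ := hq2
  obtain ⟨j, rfl⟩ := hqn
  have hj1 : 1 ≤ j := by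
    rcases Nat.eq_zero_or_pos j with rfl | h0
    · simp at hn
    · exact h0
  have hqr : (0 : ℝ) < q := by exact_mod_cast hq0
  refine ⟨q, j, hq0, hq1, hj1, ?_, hev, hrep⟩
  by_contra hcon
  push Not at hcon
  push_cast at hnJ
  nlinarith

end Pool.Agent.Results.MP_92f640_nt.RealPolynomialModuli
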