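import Pool.Agent.U308.TL.Mult
import Pool.Agent.Results.MP_92f640_nt.SmoothModuli

/-!
# No exceptional even multiples, for all moduli near almost all very smooth numbers

Definitions used: from the starting file `Pool.Agent.Results.MP_92f640_nt.SmoothModuli`: `Rep ε n`: the even integer `n` is the sum of
two primes in at least `1.3 n / log ^ 2 n` ways, and in `sing n * n / log ^ 2 n` ways up to a relative error of at most `ε`, with
the singular series `sing`; `NoExceptions ε y q`: all even `n` with `0 < n ≤ y q` and `q ∣ n` satisfy `Rep ε n`; `composedOf P N`: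
the integers `1 ≤ v ≤ N` all of whose prime factors belong to `P`; `smooth y N`: the `y`-smooth integers `1 ≤ v ≤ N`.

Method (helper308). The starting result `SmoothModuli` has the same assertion for `y ≥ log ^ (2 + δ) N` (and for sets
`P` with at least `y ^ (1 / 2 + δ) log N` elements). Below `log ^ 2 N` the exponential sum over the integers composed of primes
from `P` cannot be bounded in the same way. New here is a weight `w(v)`, the number of the representations `v = m₁ m₂ u`, where
`m₁` and `m₂` are products of `h` different primes from one dyadic class of `P` with more elements than the square root of the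
primes, and `u` is composed of primes from `P`: the weighted exponential sum is small except near few rational numbers with
small denominators (`Pool.Agent.U308.SH.chain`, `Pool.Agent.U308.SH.bilin`, `Pool.Agent.U308.SG.exp_rr`), and `w(v)` is at least
`1 / log N` of its mean value for almost all `v` (`Pool.Agent.U308.SG.structB`, `Pool.Agent.U308.SG.dom2`), so that a property
which holds with the weight `w` for almost all `v` holds for almost all `v` (`Pool.Agent.U308.TL.sm_tlaw2`, `dom_le`). The
second moment argument for Goldbach pairs is from the starting files.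
-/

set_option autoImplicit false

namespace Pool.Agent.Results.MP_92f640_nt.VerySmoothModuli

open Finset
open Pool.Agent.Results.MP_92f640_nt.SmoothModuli (Rep rep_of NoExceptions composedOf smooth)

open Classical in
/-- Let `J`, `W`, `U`, `K`, `B`, the integer `κ ≠ 0`, `ε > 0` and `δ > 0` be fixed, let `N` be large, `y ≤ log ^ K N`, and let
`c` be an arbitrary integer with `|c| ≤ B N`.

(1) Let `P` be an arbitrary set of primes which are at most `y`, with at least `y ^ (1 / 2 + δ)` and at least `log ^ (1 + δ) N` elements. Then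
for all the integers `v ≤ N` composed of primes from `P`, up to a proportion of at most `1 / log ^ U N` of them, ALL the
moduli `q ≥ 1` with `|q - (c + κ v)| ≤ log ^ W N` have no exceptional even multiples up to `q log ^ J N`: every even `m` with
`0 < m ≤ q log ^ J N` and `q ∣ m` is the sum of two primes in at least `1.3 m / log ^ 2 m` ways, and in the number of ways which
Hardy and Littlewood expect up to a relative error of at most `ε`. (There can be fewer than `N ^ δ` such
integers `v`.)

(2) In particular this holds for all the `y`-smooth integers `v ≤ N`, up to a proportion of at most `1 / log ^ U N` of them,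
if `y ≥ log ^ (1 + δ) N`. -/
theorem result (J W U K B : ℕ) (κ : ℤ) (hκ : κ ≠ 0) (ε : ℝ) (hε : 0 < ε) (δ : ℝ) (hδ : 0 < δ) :
    ∃ N₀ : ℕ, ∀ N, N₀ ≤ N → ∀ y : ℕ, (y : ℝ) ≤ Real.log N ^ K → ∀ c : ℤ, |c| ≤ B * N →
      (∀ P : Finset ℕ, (∀ p ∈ P, p.Prime ∧ p ≤ y) → (y : ℝ) ^ (1 / 2 + δ) ≤ P.card → Real.log N ^ (1 + δ) ≤ P.card →
        (((composedOf P N).filter fun v : ℕ => ∃ q : ℕ, 1 ≤ q ∧ |((q - (c + κ * v) : ℤ) : ℝ)| ≤ Real.log N ^ W ∧
          ¬ NoExceptions ε (Real.log N ^ J) q).card : ℝ) ≤ ((composedOf P N).card : ℝ) / Real.log N ^ U) ∧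
      (Real.log N ^ (1 + δ) ≤ y →
        (((smooth y N).filter fun v : ℕ => ∃ q : ℕ, 1 ≤ q ∧ |((q - (c + κ * v) : ℤ) : ℝ)| ≤ Real.log N ^ W ∧
          ¬ NoExceptions ε (Real.log N ^ J) q).card : ℝ) ≤ ((smooth y N).card : ℝ) / Real.log N ^ U) := by
  obtain ⟨N₀, h0⟩ := Pool.Agent.U308.TL.both2 δ hδ K U _ (Pool.Agent.U308.TL.sm_mult2 κ hκ K B 1 W J U 3 (min ε (1 / 200))
    (lt_min hε (by norm_num)) (Rep ε) (fun m hm _ hw => rep_of ε m hm hw))
  refine ⟨N₀, fun N hN y hy' c hc => ?_⟩
  refine h0 N hN y hy' (fun v : ℕ => ∃ q : ℕ, 1 ≤ q ∧ |((q - (c + κ * v) : ℤ) : ℝ)| ≤ Real.log N ^ W ∧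
          ¬ NoExceptions ε (Real.log N ^ J) q) (fun v => inferInstance) ⟨c, hc, fun v hv => ?_⟩
  obtain ⟨q, hq1, hq2, hbad⟩ := hv
  unfold NoExceptions at hbad
  push Not at hbad
  obtain ⟨m, hm0, hm2, ⟨h, rfl⟩, hmq, hrep⟩ := hbad
  have hq0 : (0 : ℝ) < q := by exact_mod_cast hq1
  have hh1 : 1 ≤ h := by
    rcases Nat.eq_zero_or_pos h with rfl | h0
    · simp at hm0
    · exact h0
  have hh2 : (h : ℝ) ≤ Real.log N ^ J := by
    push_cast at hmq
    rw [mul_comm] at hmq
    exact le_of_mul_le_mul_right hmq hq0
  refine ⟨h, hh1, hh2, (q : ℤ) - (c + κ * v), hq2, ?_⟩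
  have e : (h : ℤ) * (c + κ * (v : ℤ) + ((q : ℤ) - (c + κ * v))) = ((q * h : ℕ) : ℤ) := by push_cast; ring
  rw [e, Int.toNat_natCast]
  exact ⟨by exact_mod_cast hm0, by exact_mod_cast hm2.two_dvd, hrep⟩

end Pool.Agent.Results.MP_92f640_nt.VerySmoothModuli
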